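import Pool.Agent.R745.CDX.Defs

/-! Constant distance code pairs, alphabets of `6` and `7` letters: exact counts at two
coordinates (piece XTWO). -/

namespace R745CDX

open Finset H825CD

theorem XT_er_inj {ι : Type} [Fintype ι] [DecidableEq ι] {Q : ℕ} {j : ι}
    {t t' : ι → Fin (Q + 1)} (h : er j t = er j t') (hj : t j = t' j) : t = t' := by
  funext s
  by_cases hs : s = j
  · rw [hs]; exact hj
  · have h1 := congrFun h s
    simpa [er, hs] using h1

theorem XT_er_other {ι : Type} [Fintype ι] [DecidableEq ι] {Q : ℕ} {i j : ι} (hij : i ≠ j)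
    (t : ι → Fin (Q + 1)) : er j t i = t i := by
  simp [er, hij]

theorem XT_er_comm {ι : Type} [Fintype ι] [DecidableEq ι] {Q : ℕ} {i j : ι} (hij : i ≠ j)
    (t : ι → Fin (Q + 1)) : er i (er j t) = er j (er i t) := by
  unfold er
  exact Function.update_comm hij.symm _ _ _

/-- a letter of a word of `A` which is not common is not used by `B` -/
theorem XT_pure {ι : Type} [Fintype ι] [DecidableEq ι] {Q : ℕ}
    {A B : Finset (ι → Fin (Q + 1))} {j : ι} {x : Fin (Q + 1)} (hcom : com A B j = {x})
    {a : ι → Fin (Q + 1)} (ha : a ∈ A) (hax : a j ≠ x) : a j ∈ pur A B j := by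
  have h1 : a j ∈ used A j := mem_image_of_mem _ ha
  rw [pur, mem_sdiff]
  refine ⟨h1, fun h2 => hax ?_⟩
  have h3 : a j ∈ com A B j := mem_inter.2 ⟨h1, h2⟩
  rw [hcom] at h3
  exact mem_singleton.1 h3

/-- the words different from `y` at `i` -/
theorem XT_split {ι : Type} [Fintype ι] [DecidableEq ι] {Q : ℕ}
    {A B : Finset (ι → Fin (Q + 1))} {i : ι} {y : Fin (Q + 1)} (hy : y ∈ com A B i)
    {a : ι → Fin (Q + 1)} (ha : a ∈ A) :
    a i ≠ y ↔ (a i ∈ com A B i \ {y} ∨ a i ∈ pur A B i) := by
  have h1 : a i ∈ used A i := mem_image_of_mem _ ha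
  constructor
  · intro h
    by_cases h2 : a i ∈ used B i
    · left
      rw [mem_sdiff, mem_singleton]
      exact ⟨mem_inter.2 ⟨h1, h2⟩, h⟩
    · right
      rw [pur, mem_sdiff]
      exact ⟨h1, h2⟩
  · rintro (h | h)
    · rw [mem_sdiff, mem_singleton] at h
      exact h.2
    · intro h2
      rw [pur, mem_sdiff] at h
      apply h.2
      rw [h2]
      exact (mem_inter.1 hy).2

theorem XT_key (h : S_dist) {ι : Type} [Fintype ι] [DecidableEq ι] {Q δ : ℕ}
    {A B : Finset (ι → Fin (Q + 1))} (hd : ∀ a ∈ A, ∀ b ∈ B, hammingDist a b = δ)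
    {i j : ι} (hij : i ≠ j) {a a' b : ι → Fin (Q + 1)} (ha : a ∈ A) (ha' : a' ∈ A) (hb : b ∈ B)
    (hE : er i (er j a) = er i (er j a')) (hj : a j = b j ↔ a' j = b j) (hi : b i = a i) :
    a' i = a i := by
  by_contra hne
  have e1 := (h ι Q i (er j a) (er j b)).2 (by
    rw [XT_er_other hij, XT_er_other hij, hi])
  have e2 := (h ι Q i (er j a') (er j b)).1 (by
    rw [XT_er_other hij, XT_er_other hij, hi]
    exact hne)
  have e3 := hd a ha b hb
  have e4 := hd a' ha' b hb
  rw [hE] at e1
  by_cases hab : a j = b j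
  · have f1 := (h ι Q j a b).2 hab
    have f2 := (h ι Q j a' b).2 (hj.1 hab)
    omega
  · have f1 := (h ι Q j a b).1 hab
    have f2 := (h ι Q j a' b).1 (fun h' => hab (hj.2 h'))
    omega

/-- two words of `A` with the same twice erased word, letters both `x` or both pure at `j`:
if one has a common letter at `i`, the letters at `i` agree -/
theorem XT_same (h : S_dist) {ι : Type} [Fintype ι] [DecidableEq ι] {Q δ : ℕ}
    {A B : Finset (ι → Fin (Q + 1))} (hd : ∀ a ∈ A, ∀ b ∈ B, hammingDist a b = δ)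
    {i j : ι} (hij : i ≠ j) {x : Fin (Q + 1)} (hcom : com A B j = {x})
    {a a' : ι → Fin (Q + 1)} (ha : a ∈ A) (ha' : a' ∈ A)
    (hE : er i (er j a) = er i (er j a')) (hx : a j = x ↔ a' j = x)
    (hc : a i ∈ used B i) : a' i = a i := by
  obtain ⟨b, hb, hbi⟩ := mem_image.1 hc
  refine XT_key h hd hij ha ha' hb hE ?_ hbi
  by_cases hax : a j = x
  · rw [hax, hx.1 hax]
  · have hax' : a' j ≠ x := fun h' => hax (hx.2 h')
    have hbj : b j ∈ used B j := mem_image_of_mem _ hb
    have n1 : a j ≠ b j := by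
      intro h'
      exact (mem_sdiff.1 (XT_pure hcom ha hax)).2 (h' ▸ hbj)
    have n2 : a' j ≠ b j := by
      intro h'
      exact (mem_sdiff.1 (XT_pure hcom ha' hax')).2 (h' ▸ hbj)
    exact ⟨fun h' => absurd h' n1, fun h' => absurd h' n2⟩

theorem XT_inj01 (h : S_dist) {ι : Type} [Fintype ι] [DecidableEq ι] {Q δ : ℕ}
    {A B : Finset (ι → Fin (Q + 1))} (hd : ∀ a ∈ A, ∀ b ∈ B, hammingDist a b = δ)
    {i j : ι} (hij : i ≠ j) {x : Fin (Q + 1)} (hcom : com A B j = {x})
    (P : Finset (Fin (Q + 1))) (hP : P ⊆ used B i) :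
    (A.filter (fun a => a j = x ∧ a i ∈ P)).card = e01 A j i x P := by
  unfold e01
  symm
  apply card_image_of_injOn
  intro a ha a' ha' hE
  have ha := mem_filter.1 (mem_coe.1 ha)
  have ha' := mem_filter.1 (mem_coe.1 ha')
  have hE' : er i (er j a) = er i (er j a') := hE
  have h1 := XT_same h hd hij hcom ha.1 ha'.1 hE' (by rw [ha.2.1, ha'.2.1]) (hP ha.2.2)
  have h2 : er j a = er j a' := XT_er_inj hE' (by
    rw [XT_er_other hij, XT_er_other hij]; exact h1.symm)
  exact XT_er_inj h2 (by rw [ha.2.1, ha'.2.1])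

theorem XT_fib01 {ι : Type} [Fintype ι] [DecidableEq ι] {Q : ℕ}
    {A : Finset (ι → Fin (Q + 1))} {i j : ι} (hij : i ≠ j) {x : Fin (Q + 1)}
    (P : Finset (Fin (Q + 1))) :
    (A.filter (fun a => a j = x ∧ a i ∈ P)).card ≤ P.card * e01 A j i x P := by
  unfold e01
  refine card_le_mul_card_image _ _ fun u _ => ?_
  refine card_le_card_of_injOn (fun t => t i) ?_ ?_
  · intro t ht
    have ht0 := mem_filter.1 (mem_coe.1 ht)
    exact mem_coe.2 (mem_filter.1 ht0.1).2.2
  · intro a ha a' ha' htt
    have ha0 := mem_filter.1 (mem_coe.1 ha)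
    have ha0' := mem_filter.1 (mem_coe.1 ha')
    have ha1 := mem_filter.1 ha0.1
    have ha1' := mem_filter.1 ha0'.1
    have hE : er i (er j a) = er i (er j a') := ha0.2.trans ha0'.2.symm
    have h2 : er j a = er j a' := XT_er_inj hE (by
      rw [XT_er_other hij, XT_er_other hij]; exact htt)
    exact XT_er_inj h2 (by rw [ha1.2.1, ha1'.2.1])

theorem XT_img {ι : Type} [Fintype ι] [DecidableEq ι] {Q : ℕ} (i j : ι)
    (F : Finset (ι → Fin (Q + 1))) :
    F.image (fun a => er i (er j a)) = (F.image (er j)).image (er i) := by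
  rw [image_image]
  rfl

theorem XT_inj11 (h : S_dist) {ι : Type} [Fintype ι] [DecidableEq ι] {Q δ : ℕ}
    {A B : Finset (ι → Fin (Q + 1))} (hd : ∀ a ∈ A, ∀ b ∈ B, hammingDist a b = δ)
    {i j : ι} (hij : i ≠ j) {x : Fin (Q + 1)} (hcom : com A B j = {x})
    (P : Finset (Fin (Q + 1))) (hP : P ⊆ used B i) :
    ((A.filter (fun a => a j ≠ x ∧ a i ∈ P)).image (er j)).card = e11 A j i x P := by
  unfold e11
  rw [XT_img]
  symm
  apply card_image_of_injOn
  intro t ht t' ht' hE
  obtain ⟨a, ha, rfl⟩ := mem_image.1 (mem_coe.1 ht)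
  obtain ⟨a', ha', rfl⟩ := mem_image.1 (mem_coe.1 ht')
  have ha := mem_filter.1 ha
  have ha' := mem_filter.1 ha'
  have h1 := XT_same h hd hij hcom ha.1 ha'.1 hE
    ⟨fun h' => absurd h' ha.2.1, fun h' => absurd h' ha'.2.1⟩ (hP ha.2.2)
  exact XT_er_inj hE (by rw [XT_er_other hij, XT_er_other hij]; exact h1.symm)

theorem XT_fib11 {ι : Type} [Fintype ι] [DecidableEq ι] {Q : ℕ}
    {A : Finset (ι → Fin (Q + 1))} {i j : ι} (hij : i ≠ j) {x : Fin (Q + 1)}
    (P : Finset (Fin (Q + 1))) :
    ((A.filter (fun a => a j ≠ x ∧ a i ∈ P)).image (er j)).card ≤ P.card * e11 A j i x P := by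
  unfold e11
  rw [XT_img]
  refine card_le_mul_card_image _ _ fun u _ => ?_
  refine card_le_card_of_injOn (fun t => t i) ?_ ?_
  · intro t ht
    have ht0 := mem_filter.1 (mem_coe.1 ht)
    obtain ⟨a, ha, rfl⟩ := mem_image.1 ht0.1
    have hai : (er j a) i = a i := XT_er_other hij a
    show (er j a) i ∈ (P : Set (Fin (Q + 1)))
    rw [hai, mem_coe]
    exact (mem_filter.1 ha).2.2
  · intro t ht t' ht' htt
    have ht0 := mem_filter.1 (mem_coe.1 ht)
    have ht0' := mem_filter.1 (mem_coe.1 ht')
    exact XT_er_inj (ht0.2.trans ht0'.2.symm) htt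

theorem XT_clo (h3 : X_clo) {ι : Type} [Fintype ι] [DecidableEq ι] {Q : ℕ} {S : Finset ι}
    {δ M : ℕ} {A B : Finset (ι → Fin (Q + 1))} (hC : Ctx S δ M A B)
    {i j : ι} (hjS : j ∈ S) (hij : i ≠ j) {x : Fin (Q + 1)} (hcom : com A B j = {x})
    (P : Finset (Fin (Q + 1))) :
    (pur A B j).card * e11 A j i x P ≤
      ((A.filter (fun a => a j ≠ x ∧ a i ∈ P)).image (er i)).card := by
  unfold e11
  rw [← card_product]
  refine card_le_card_of_injOn (fun uw => Function.update uw.2 j uw.1) ?_ ?_
  · rintro ⟨u, w⟩ huw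
    have huw' := mem_product.1 (mem_coe.1 huw)
    obtain ⟨hu, hw⟩ := huw'
    obtain ⟨a, ha, hwa⟩ := mem_image.1 hw
    have hwa' : w = er i (er j a) := hwa.symm
    have ha := mem_filter.1 ha
    have hu' : u ∈ pur A B j := hu
    have hA := h3 ι Q S δ M A B hC j hjS a ha.1 (XT_pure hcom ha.1 ha.2.1) u hu'
    show Function.update w j u ∈ _
    rw [mem_coe, mem_image]
    refine ⟨Function.update a j u, mem_filter.2 ⟨hA, ?_, ?_⟩, ?_⟩
    · rw [Function.update_self]
      intro hux
      have hx : x ∈ com A B j := by rw [hcom]; exact mem_singleton_self x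
      rw [pur, mem_sdiff] at hu'
      apply hu'.2
      rw [hux]
      exact (mem_inter.1 hx).2
    · rw [Function.update_of_ne hij]
      exact ha.2.2
    · rw [hwa']
      unfold er
      funext s
      by_cases hsj : s = j
      · subst hsj
        rw [Function.update_of_ne hij.symm, Function.update_self, Function.update_self]
      · rw [Function.update_of_ne hsj]
        by_cases hsi : s = i
        · subst hsi
          rw [Function.update_self, Function.update_self]
        · rw [Function.update_of_ne hsi, Function.update_of_ne hsi, Function.update_of_ne hsj,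
            Function.update_of_ne hsj]
  · rintro ⟨u, w⟩ huw ⟨u', w'⟩ huw' hE
    have hw := (mem_product.1 (mem_coe.1 huw)).2
    have hw' := (mem_product.1 (mem_coe.1 huw')).2
    obtain ⟨a, ha, hwa⟩ := mem_image.1 hw
    obtain ⟨a', ha', hwa'⟩ := mem_image.1 hw'
    have hwj : w j = 0 := by
      have : w = er i (er j a) := hwa.symm
      rw [this, XT_er_other hij.symm]
      simp [er]
    have hwj' : w' j = 0 := by
      have : w' = er i (er j a') := hwa'.symm
      rw [this, XT_er_other hij.symm]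
      simp [er]
    have hE' : Function.update w j u = Function.update w' j u' := hE
    have hu : u = u' := by
      have := congrFun hE' j
      rwa [Function.update_self, Function.update_self] at this
    have hww : w = w' := by
      funext s
      by_cases hsj : s = j
      · rw [hsj, hwj, hwj']
      · have := congrFun hE' s
        rwa [Function.update_of_ne hsj, Function.update_of_ne hsj] at this
    rw [hu, hww]

theorem tX_two (h : S_dist) (h3 : X_clo) : X_two := by
  intro ι _ _ Q S δ M A B hC j hjS i hiS hij x y hcom hy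
  have hd := hC.dist
  have hP1 : com A B i \ {y} ⊆ used B i := fun z hz =>
    (mem_inter.1 (mem_sdiff.1 hz).1).2
  have a1 := XT_inj01 h hd hij hcom (com A B i \ {y}) hP1
  have a2 := XT_fib01 (A := A) hij (x := x) (pur A B i)
  have b1 := XT_inj11 h hd hij hcom (com A B i \ {y}) hP1
  have b2 := XT_fib11 (A := A) hij (x := x) (pur A B i)
  have c1 := XT_clo h3 hC hjS hij hcom (com A B i \ {y})
  have c2 := XT_clo h3 hC hjS hij hcom (pur A B i)
  refine ⟨?_, ?_, ?_, ?_, ?_, ?_⟩
  · -- (1)
    have hsub : A ⊆ (A.filter (fun a => a j = x ∧ a i = y)) ∪ (A.filter (fun a => a j ≠ x)) ∪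
        (A.filter (fun a => a j = x ∧ a i ∈ com A B i \ {y})) ∪
        (A.filter (fun a => a j = x ∧ a i ∈ pur A B i)) := by
      intro a ha
      by_cases h1 : a j = x
      · by_cases h2 : a i = y
        · exact mem_union_left _ (mem_union_left _ (mem_union_left _ (mem_filter.2 ⟨ha, h1, h2⟩)))
        · rcases (XT_split hy ha).1 h2 with h3 | h3
          · exact mem_union_left _ (mem_union_right _ (mem_filter.2 ⟨ha, h1, h3⟩))
          · exact mem_union_right _ (mem_filter.2 ⟨ha, h1, h3⟩)
      · exact mem_union_left _ (mem_union_left _ (mem_union_right _ (mem_filter.2 ⟨ha, h1⟩)))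
    have e := card_le_card hsub
    have u1 := card_union_le ((A.filter (fun a => a j = x ∧ a i = y)) ∪
      (A.filter (fun a => a j ≠ x)) ∪ (A.filter (fun a => a j = x ∧ a i ∈ com A B i \ {y})))
      (A.filter (fun a => a j = x ∧ a i ∈ pur A B i))
    have u2 := card_union_le ((A.filter (fun a => a j = x ∧ a i = y)) ∪
      (A.filter (fun a => a j ≠ x))) (A.filter (fun a => a j = x ∧ a i ∈ com A B i \ {y}))
    have u3 := card_union_le (A.filter (fun a => a j = x ∧ a i = y)) (A.filter (fun a => a j ≠ x))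
    have e1 : (A.filter (fun a => a j = x ∧ a i = y)).card = p00 A j i x y := rfl
    have e2 : (A.filter (fun a => a j ≠ x)).card = na A j x := rfl
    omega
  · -- (2)
    have hsub : (A.filter (fun a => a j ≠ x)).image (er j) ⊆
        (A.filter (fun a => a j ≠ x ∧ a i = y)).image (er j) ∪
        (A.filter (fun a => a j ≠ x ∧ a i ∈ com A B i \ {y})).image (er j) ∪
        (A.filter (fun a => a j ≠ x ∧ a i ∈ pur A B i)).image (er j) := by
      intro t ht
      obtain ⟨a, ha, rfl⟩ := mem_image.1 ht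
      obtain ⟨ha1, ha2⟩ := mem_filter.1 ha
      by_cases h2 : a i = y
      · exact mem_union_left _ (mem_union_left _ (mem_image_of_mem _
          (mem_filter.2 ⟨ha1, ha2, h2⟩)))
      · rcases (XT_split hy ha1).1 h2 with h3 | h3
        · exact mem_union_left _ (mem_union_right _ (mem_image_of_mem _
            (mem_filter.2 ⟨ha1, ha2, h3⟩)))
        · exact mem_union_right _ (mem_image_of_mem _ (mem_filter.2 ⟨ha1, ha2, h3⟩))
    have e := card_le_card hsub
    have u1 := card_union_le ((A.filter (fun a => a j ≠ x ∧ a i = y)).image (er j) ∪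
        (A.filter (fun a => a j ≠ x ∧ a i ∈ com A B i \ {y})).image (er j))
        ((A.filter (fun a => a j ≠ x ∧ a i ∈ pur A B i)).image (er j))
    have u2 := card_union_le ((A.filter (fun a => a j ≠ x ∧ a i = y)).image (er j))
        ((A.filter (fun a => a j ≠ x ∧ a i ∈ com A B i \ {y})).image (er j))
    have e1 : ((A.filter (fun a => a j ≠ x ∧ a i = y)).image (er j)).card = z10 A j i x y := by
      unfold z10
      rw [XT_img]
      symm
      apply card_image_of_injOn
      intro t ht t' ht' htt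
      obtain ⟨a, ha, rfl⟩ := mem_image.1 (mem_coe.1 ht)
      obtain ⟨a', ha', rfl⟩ := mem_image.1 (mem_coe.1 ht')
      refine XT_er_inj htt ?_
      rw [XT_er_other hij, XT_er_other hij, (mem_filter.1 ha).2.2, (mem_filter.1 ha').2.2]
    have e2 : ((A.filter (fun a => a j ≠ x)).image (er j)).card = nz A j x := rfl
    omega
  · -- (3)
    have hdis : Disjoint (A.filter (fun a => a j = x ∧ a i ∈ com A B i \ {y}))
        (A.filter (fun a => a j ≠ x ∧ a i ∈ com A B i \ {y})) := by
      rw [disjoint_left]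
      intro a h1 h2
      exact (mem_filter.1 h2).2.1 (mem_filter.1 h1).2.1
    have hsub : (A.filter (fun a => a j = x ∧ a i ∈ com A B i \ {y})) ∪
        (A.filter (fun a => a j ≠ x ∧ a i ∈ com A B i \ {y})) ⊆
        A.filter (fun a => a i ∈ com A B i \ {y}) := by
      intro a ha
      rcases mem_union.1 ha with h1 | h1
      · exact mem_filter.2 ⟨(mem_filter.1 h1).1, (mem_filter.1 h1).2.2⟩
      · exact mem_filter.2 ⟨(mem_filter.1 h1).1, (mem_filter.1 h1).2.2⟩
    have e := card_le_card hsub
    rw [card_union_of_disjoint hdis] at e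
    have e2 : (A.filter (fun a => a i ∈ com A B i \ {y})).card = cnt A i (com A B i \ {y}) := rfl
    have e3 : ((A.filter (fun a => a j ≠ x ∧ a i ∈ com A B i \ {y})).image (er i)).card ≤
      (A.filter (fun a => a j ≠ x ∧ a i ∈ com A B i \ {y})).card := card_image_le
    omega
  · -- (4)
    have hdis : Disjoint ((A.filter (fun a => a j = x ∧ a i ∈ pur A B i)).image (er i))
        ((A.filter (fun a => a j ≠ x ∧ a i ∈ pur A B i)).image (er i)) := by
      rw [disjoint_left]
      intro t h1 h2
      obtain ⟨a, ha, rfl⟩ := mem_image.1 h1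
      obtain ⟨a', ha', hE⟩ := mem_image.1 h2
      have e1 := congrFun hE j
      rw [XT_er_other hij.symm, XT_er_other hij.symm] at e1
      exact (mem_filter.1 ha').2.1 (e1.trans (mem_filter.1 ha).2.1)
    have hsub : (A.filter (fun a => a j = x ∧ a i ∈ pur A B i)).image (er i) ∪
        (A.filter (fun a => a j ≠ x ∧ a i ∈ pur A B i)).image (er i) ⊆
        (A.filter (fun a => a i ∈ pur A B i)).image (er i) := by
      intro t ht
      rcases mem_union.1 ht with h1 | h1
      · obtain ⟨a, ha, rfl⟩ := mem_image.1 h1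
        exact mem_image_of_mem _ (mem_filter.2 ⟨(mem_filter.1 ha).1, (mem_filter.1 ha).2.2⟩)
      · obtain ⟨a, ha, rfl⟩ := mem_image.1 h1
        exact mem_image_of_mem _ (mem_filter.2 ⟨(mem_filter.1 ha).1, (mem_filter.1 ha).2.2⟩)
    have e := card_le_card hsub
    rw [card_union_of_disjoint hdis] at e
    have e2 : ((A.filter (fun a => a i ∈ pur A B i)).image (er i)).card =
      pcnt A i (pur A B i) := rfl
    have e3 : e01 A j i x (pur A B i) ≤
        ((A.filter (fun a => a j = x ∧ a i ∈ pur A B i)).image (er i)).card := by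
      unfold e01
      have : (A.filter (fun a => a j = x ∧ a i ∈ pur A B i)).image (fun a => er i (er j a)) =
          ((A.filter (fun a => a j = x ∧ a i ∈ pur A B i)).image (er i)).image (er j) := by
        rw [image_image]
        exact image_congr fun a _ => XT_er_comm hij a
      rw [this]
      exact card_image_le
    omega
  · -- (5)
    have hun : A.filter (fun a => a j = x ∧ a i ≠ y) =
        (A.filter (fun a => a j = x ∧ a i ∈ com A B i \ {y})) ∪
        (A.filter (fun a => a j = x ∧ a i ∈ pur A B i)) := by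
      ext a
      simp only [mem_union, mem_filter]
      constructor
      · rintro ⟨ha, h1, h2⟩
        rcases (XT_split hy ha).1 h2 with h3 | h3
        · exact Or.inl ⟨ha, h1, h3⟩
        · exact Or.inr ⟨ha, h1, h3⟩
      · rintro (⟨ha, h1, h3⟩ | ⟨ha, h1, h3⟩)
        · exact ⟨ha, h1, (XT_split hy ha).2 (Or.inl h3)⟩
        · exact ⟨ha, h1, (XT_split hy ha).2 (Or.inr h3)⟩
    unfold z01 e01
    rw [hun, image_union]
    apply card_union_of_disjoint
    rw [disjoint_left]
    intro t h1 h2
    obtain ⟨a, ha, hat⟩ := mem_image.1 h1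
    obtain ⟨a', ha', hat'⟩ := mem_image.1 h2
    have ha := mem_filter.1 ha
    have ha' := mem_filter.1 ha'
    have hE : er i (er j a) = er i (er j a') := hat.trans hat'.symm
    have e := XT_same h hd hij hcom ha.1 ha'.1 hE (by rw [ha.2.1, ha'.2.1]) (hP1 ha.2.2)
    have hp := ha'.2.2
    rw [pur, mem_sdiff, e] at hp
    exact hp.2 (hP1 ha.2.2)
  · -- (6)
    have hun : A.filter (fun a => a j ≠ x ∧ a i ≠ y) =
        (A.filter (fun a => a j ≠ x ∧ a i ∈ com A B i \ {y})) ∪
        (A.filter (fun a => a j ≠ x ∧ a i ∈ pur A B i)) := by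
      ext a
      simp only [mem_union, mem_filter]
      constructor
      · rintro ⟨ha, h1, h2⟩
        rcases (XT_split hy ha).1 h2 with h3 | h3
        · exact Or.inl ⟨ha, h1, h3⟩
        · exact Or.inr ⟨ha, h1, h3⟩
      · rintro (⟨ha, h1, h3⟩ | ⟨ha, h1, h3⟩)
        · exact ⟨ha, h1, (XT_split hy ha).2 (Or.inl h3)⟩
        · exact ⟨ha, h1, (XT_split hy ha).2 (Or.inr h3)⟩
    unfold z11 e11
    rw [hun, image_union]
    apply card_union_of_disjoint
    rw [disjoint_left]
    intro t h1 h2
    obtain ⟨a, ha, hat⟩ := mem_image.1 h1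
    obtain ⟨a', ha', hat'⟩ := mem_image.1 h2
    have ha := mem_filter.1 ha
    have ha' := mem_filter.1 ha'
    have hE : er i (er j a) = er i (er j a') := hat.trans hat'.symm
    have e := XT_same h hd hij hcom ha.1 ha'.1 hE
      ⟨fun h' => absurd h' ha.2.1, fun h' => absurd h' ha'.2.1⟩ (hP1 ha.2.2)
    have hp := ha'.2.2
    rw [pur, mem_sdiff, e] at hp
    exact hp.2 (hP1 ha.2.2)

end R745CDX
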